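import Pool.Agent.R787.OpExist

/-!
# Uniform Anosov neighbourhood of the Fuchsian locus of opers

The definitions (principal data, differentials, oper connection, holonomy, `Δ`-Anosov,
cocompactness) are in `Pool.Agent.R787.OpDefs`.
-/

set_option autoImplicit false

open UpperHalfPlane Matrix MatrixGroups Module

namespace Pool.Agent.Results.MP_93fb9a_gt.UniformAnosovNeighbourhood

open Pool.Agent.R787.Oper

/-- For every complex Lie algebra with principal data there is `ε > 0` such that for every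
discrete cocompact subgroup `Γ` of `SL(2, ℝ)` and every tuple of holomorphic differentials on the
quotient with pointwise norms at most `ε`, the associated oper has a holonomy representation and
it is `Δ`-Anosov. -/
theorem result {𝔤 : Type*} [LieRing 𝔤] [LieAlgebra ℂ 𝔤] [FiniteDimensional ℂ 𝔤]
    (D : PrincipalData 𝔤) :
    ∃ ε : ℝ, 0 < ε ∧ ∀ (Γ : Subgroup SL(2, ℝ)) [DiscreteTopology Γ], IsCocompact Γ →
      ∀ α : Fin (LieAlgebra.rank ℂ 𝔤) → ℂ → ℂ, IsDifferentials D Γ α →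
        (∀ i, ∀ z : ℍ, hypNorm (D.m i + 1) (α i) z ≤ ε) →
        (∃ ρ : Γ →* (𝔤 ≃ₗ[ℂ] 𝔤), IsHolonomy D Γ α ρ) ∧
        ∀ ρ : Γ →* (𝔤 ≃ₗ[ℂ] 𝔤), IsHolonomy D Γ α ρ → IsDeltaAnosov Γ ρ := by
  obtain ⟨ε, hε, h⟩ := anosov D
  exact ⟨ε, hε, fun Γ _ hΓ α hα hn => ⟨exists_holonomy D Γ α hα, h Γ hΓ α hn⟩⟩

end Pool.Agent.Results.MP_93fb9a_gt.UniformAnosovNeighbourhood
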